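import Mathlib

set_option autoImplicit false

/-!
# Fundamental biorthogonal sequences
-/

open Set Topology Filter

noncomputable section

namespace Pool.Agent.U594.CC

variable {𝕜 : Type*} [RCLike 𝕜] {X : Type*} [NormedAddCommGroup X] [NormedSpace 𝕜 X]

/-- one step of the construction -/
def stepE (L : List (X × StrongDual 𝕜 X)) (x : X) : X := x - (L.map fun p => p.2 x • p.1).sum

open Classical in
/-- one step of the construction, functional -/
def stepF (L : List (X × StrongDual 𝕜 X)) (x : X) : StrongDual 𝕜 X :=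
  if h : stepE L x = 0 then 0 else
    (SeparatingDual.exists_eq_one (R := 𝕜) h).choose -
      (L.map fun p => (SeparatingDual.exists_eq_one (R := 𝕜) h).choose p.1 • p.2).sum

/-- the list of the first `n` pairs -/
def lst (𝕜 : Type*) [RCLike 𝕜] {X : Type*} [NormedAddCommGroup X] [NormedSpace 𝕜 X] (x : ℕ → X) :
    ℕ → List (X × StrongDual 𝕜 X)
  | 0 => []
  | n + 1 => lst 𝕜 x n ++ [(stepE (lst 𝕜 x n) (x n), stepF (lst 𝕜 x n) (x n))]

/-- the vectors -/
def eb (𝕜 : Type*) [RCLike 𝕜] {X : Type*} [NormedAddCommGroup X] [NormedSpace 𝕜 X] (x : ℕ → X)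
    (n : ℕ) : X := stepE (lst 𝕜 x n) (x n)

/-- the functionals -/
def fb (𝕜 : Type*) [RCLike 𝕜] {X : Type*} [NormedAddCommGroup X] [NormedSpace 𝕜 X] (x : ℕ → X)
    (n : ℕ) : StrongDual 𝕜 X := stepF (lst 𝕜 x n) (x n)

theorem lst_map {M : Type*} [AddCommMonoid M] (x : ℕ → X) (g : X × StrongDual 𝕜 X → M) (n : ℕ) :
    ((lst 𝕜 x n).map g).sum = ∑ i ∈ Finset.range n, g (eb 𝕜 x i, fb 𝕜 x i) := by
  induction n with
  | zero => simp [lst]
  | succ n ih =>
    rw [lst, List.map_append, List.sum_append, ih, Finset.sum_range_succ]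
    simp [eb, fb]

theorem eb_eq (x : ℕ → X) (n : ℕ) :
    eb 𝕜 x n = x n - ∑ i ∈ Finset.range n, fb 𝕜 x i (x n) • eb 𝕜 x i := by
  conv_lhs => rw [eb, stepE, lst_map]

theorem fb_zero {x : ℕ → X} {n : ℕ} (h : eb 𝕜 x n = 0) : fb 𝕜 x n = 0 := by
  rw [fb, stepF, dif_pos]
  exact h

theorem fb_eq {x : ℕ → X} {n : ℕ} (h : eb 𝕜 x n ≠ 0) : ∃ g : StrongDual 𝕜 X, g (eb 𝕜 x n) = 1 ∧
    fb 𝕜 x n = g - ∑ i ∈ Finset.range n, g (eb 𝕜 x i) • fb 𝕜 x i := by
  have h' : ¬ stepE (lst 𝕜 x n) (x n) = 0 := h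
  refine ⟨(SeparatingDual.exists_eq_one (R := 𝕜) h').choose,
    (SeparatingDual.exists_eq_one (R := 𝕜) h').choose_spec, ?_⟩
  conv_lhs => rw [fb, stepF, dif_neg h', lst_map]

theorem biorth (x : ℕ → X) (n : ℕ) :
    (∀ i < n, ∀ j < n, i ≠ j → fb 𝕜 x i (eb 𝕜 x j) = 0) ∧
      ∀ i < n, eb 𝕜 x i ≠ 0 → fb 𝕜 x i (eb 𝕜 x i) = 1 := by
  induction n with
  | zero => simp
  | succ n ih =>
    obtain ⟨h1, h2⟩ := ih
    have hsum : ∀ (i : ℕ), i < n → ∀ a : ℕ → 𝕜,
        ∑ j ∈ Finset.range n, a j * fb 𝕜 x i (eb 𝕜 x j) = a i * fb 𝕜 x i (eb 𝕜 x i) := by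
      intro i hi a
      rw [Finset.sum_eq_single i]
      · intro j hj hji
        rw [h1 i hi j (Finset.mem_range.1 hj) hji.symm, mul_zero]
      · intro h
        exact absurd (Finset.mem_range.2 hi) h
    have ha : ∀ i < n, fb 𝕜 x i (eb 𝕜 x n) = 0 := by
      intro i hi
      rw [eb_eq x n, map_sub, map_sum]
      simp only [map_smul, smul_eq_mul]
      rw [hsum i hi fun j => fb 𝕜 x j (x n)]
      by_cases h0 : eb 𝕜 x i = 0
      · rw [fb_zero h0]
        simp
      · rw [h2 i hi h0, mul_one, sub_self]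
    have hb : ∀ i < n, fb 𝕜 x n (eb 𝕜 x i) = 0 := by
      intro i hi
      by_cases h0 : eb 𝕜 x n = 0
      · rw [fb_zero h0]
        rfl
      · obtain ⟨g, -, hg⟩ := fb_eq h0
        rw [hg]
        simp only [ContinuousLinearMap.sub_apply, ContinuousLinearMap.sum_apply,
          ContinuousLinearMap.smul_apply, smul_eq_mul]
        rw [Finset.sum_eq_single i]
        · by_cases h3 : eb 𝕜 x i = 0
          · rw [h3]
            simp
          · rw [h2 i hi h3, mul_one, sub_self]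
        · intro j hj hji
          rw [h1 j (Finset.mem_range.1 hj) i hi hji, mul_zero]
        · intro h
          exact absurd (Finset.mem_range.2 hi) h
    constructor
    · intro i hi j hj hij
      rcases Nat.lt_succ_iff_lt_or_eq.1 hi with hi | rfl
      · rcases Nat.lt_succ_iff_lt_or_eq.1 hj with hj | rfl
        · exact h1 i hi j hj hij
        · exact ha i hi
      · rcases Nat.lt_succ_iff_lt_or_eq.1 hj with hj | rfl
        · exact hb j hj
        · exact absurd rfl hij
    · intro i hi h0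
      rcases Nat.lt_succ_iff_lt_or_eq.1 hi with hi | rfl
      · exact h2 i hi h0
      · obtain ⟨g, hg1, hg⟩ := fb_eq h0
        rw [hg]
        simp only [ContinuousLinearMap.sub_apply, ContinuousLinearMap.sum_apply,
          ContinuousLinearMap.smul_apply, smul_eq_mul]
        rw [Finset.sum_eq_zero, sub_zero, hg1]
        intro j hj
        rw [ha j (Finset.mem_range.1 hj), mul_zero]

/-- a fundamental biorthogonal sequence (with zeros allowed) in a separable space -/
theorem exists_biorth (𝕜 : Type*) [RCLike 𝕜] (X : Type*) [NormedAddCommGroup X] [NormedSpace 𝕜 X]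
    [TopologicalSpace.SeparableSpace X] :
    ∃ (e : ℕ → X) (f : ℕ → StrongDual 𝕜 X), (∀ i j, i ≠ j → f i (e j) = 0) ∧
      (∀ i, e i ≠ 0 → f i (e i) = 1) ∧
      ∀ φ : StrongDual 𝕜 X, (∀ i, φ (e i) = 0) → φ = 0 := by
  let x := TopologicalSpace.denseSeq X
  refine ⟨eb 𝕜 x, fb 𝕜 x, ?_, ?_, ?_⟩
  · intro i j hij
    exact (biorth x (max i j + 1)).1 i (by omega) j (by omega) hij
  · intro i hi
    exact (biorth x (i + 1)).2 i (by omega) hi
  · intro φ hφ
    have h1 : ∀ n, φ (x n) = 0 := by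
      intro n
      have h2 := congrArg φ (eb_eq (𝕜 := 𝕜) x n)
      rw [hφ, map_sub, map_sum] at h2
      simp only [map_smul, hφ, smul_zero, Finset.sum_const_zero, sub_zero] at h2
      exact h2.symm
    have h3 : (φ : X → 𝕜) = fun _ => 0 := by
      refine Continuous.ext_on (TopologicalSpace.denseRange_denseSeq X) φ.continuous
        continuous_const ?_
      rintro _ ⟨n, rfl⟩
      exact h1 n
    ext y
    exact congrFun h3 y

end Pool.Agent.U594.CC
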