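import Mathlib

set_option autoImplicit false

open Set

namespace Pool.Agent.U594.CC

/-- `T` is convex-cyclic: there is a vector `x` such that the convex hull of the orbit
`{T ^ n x : n ≥ 0}` is dense. -/
def ConvexCyclic {X : Type*} [AddCommGroup X] [Module ℝ X] [TopologicalSpace X] (T : X → X) : Prop :=
  ∃ x, Dense (convexHull ℝ (range fun n : ℕ => T^[n] x))

end Pool.Agent.U594.CC
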