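import Pool.Agent.U594.CC.Biorth
import Pool.Agent.U594.CC.Def

set_option autoImplicit false

/-!
# A convex-cyclic operator whose square is not convex-cyclic
-/

open Set Topology Filter

noncomputable section

namespace Pool.Agent.U594.CC

variable {𝕜 : Type*} [RCLike 𝕜] {X : Type*} [NormedAddCommGroup X] [NormedSpace 𝕜 X]

/-- the weights -/
def ep (w : ℕ → ℝ) (n : ℕ) : ℝ := (1 / 2) ^ n / (1 + ∑ j ∈ Finset.range (n + 1), w j)

variable {w : ℕ → ℝ}

theorem ep_den (hw : ∀ n, 0 ≤ w n) (n : ℕ) : 1 ≤ 1 + ∑ j ∈ Finset.range (n + 1), w j := by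
  have := Finset.sum_nonneg fun j (_ : j ∈ Finset.range (n + 1)) => hw j
  linarith

theorem ep_pos (hw : ∀ n, 0 ≤ w n) (n : ℕ) : 0 < ep w n := by
  have := ep_den hw n
  unfold ep
  positivity

theorem ep_lt (hw : ∀ n, 0 ≤ w n) {m n : ℕ} (h : m < n) : ep w n < ep w m := by
  have h1 := ep_den hw m
  have h2 : 1 + ∑ j ∈ Finset.range (m + 1), w j ≤ 1 + ∑ j ∈ Finset.range (n + 1), w j := by
    gcongr
    · exact fun i _ _ => hw i
    
  unfold ep
  calc (1 / 2 : ℝ) ^ n / (1 + ∑ j ∈ Finset.range (n + 1), w j)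
      ≤ (1 / 2 : ℝ) ^ n / (1 + ∑ j ∈ Finset.range (m + 1), w j) := by
        gcongr
    _ < (1 / 2 : ℝ) ^ m / (1 + ∑ j ∈ Finset.range (m + 1), w j) := by
        apply div_lt_div_of_pos_right _ (by linarith)
        exact pow_lt_pow_right_of_lt_one₀ (by norm_num) (by norm_num) h

theorem ep_le_one (hw : ∀ n, 0 ≤ w n) (n : ℕ) : ep w n ≤ 1 := by
  have h1 := ep_den hw n
  unfold ep
  rw [div_le_one (by linarith)]
  exact (pow_le_one₀ (by norm_num) (by norm_num)).trans h1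

theorem ep_mul_le (hw : ∀ n, 0 ≤ w n) (n : ℕ) : ep w n * w n ≤ (1 / 2) ^ n := by
  have h1 := ep_den hw n
  have h2 : w n ≤ 1 + ∑ j ∈ Finset.range (n + 1), w j := by
    have := Finset.single_le_sum (fun j (_ : j ∈ Finset.range (n + 1)) => hw j)
      (Finset.mem_range.2 (Nat.lt_succ_self n))
    linarith
  unfold ep
  rw [div_mul_eq_mul_div, div_le_iff₀ (by linarith)]
  exact mul_le_mul_of_nonneg_left h2 (by positivity)

/-- A Banach space with a fundamental biorthogonal sequence. -/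
structure Sys (𝕜 : Type*) [RCLike 𝕜] (X : Type*) [NormedAddCommGroup X] [NormedSpace 𝕜 X] where
  e : ℕ → X
  f : ℕ → StrongDual 𝕜 X
  orth : ∀ i j, i ≠ j → f i (e j) = 0
  one : ∀ i, e i ≠ 0 → f i (e i) = 1
  fund : ∀ φ : StrongDual 𝕜 X, (∀ i, φ (e i) = 0) → φ = 0

namespace Sys

variable (s : Sys 𝕜 X)

/-- norms -/
def wt (n : ℕ) : ℝ := ‖s.f n‖ * ‖s.e n‖ + ‖s.e n‖

theorem wt_nonneg (n : ℕ) : 0 ≤ s.wt n := by unfold wt; positivity

/-- the weights of the operator -/
def ε (n : ℕ) : ℝ := ep s.wt n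

theorem ε_pos (n : ℕ) : 0 < s.ε n := ep_pos s.wt_nonneg n

theorem ε_lt {m n : ℕ} (h : m < n) : s.ε n < s.ε m := ep_lt s.wt_nonneg h

theorem norm_term (n : ℕ) : ‖((s.ε n : ℝ) : 𝕜) • (s.f n).smulRight (s.e n)‖ ≤ (1 / 2) ^ n := by
  rw [norm_smul, RCLike.norm_ofReal, abs_of_pos (s.ε_pos n)]
  have h1 := ep_mul_le s.wt_nonneg n
  have h2 : ‖(s.f n).smulRight (s.e n)‖ ≤ s.wt n := by
    rw [ContinuousLinearMap.norm_smulRight_apply]
    unfold wt
    have := norm_nonneg (s.e n)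
    linarith
  exact (mul_le_mul_of_nonneg_left h2 (s.ε_pos n).le).trans h1

variable [CompleteSpace X]

theorem summable_term : Summable fun n => ((s.ε n : ℝ) : 𝕜) • (s.f n).smulRight (s.e n) :=
  Summable.of_norm_bounded summable_geometric_two (fun n => s.norm_term n)

/-- the diagonal operator -/
def K : X →L[𝕜] X := ∑' n, ((s.ε n : ℝ) : 𝕜) • (s.f n).smulRight (s.e n)

theorem K_apply (x : X) : s.K x = ∑' n, ((s.ε n : ℝ) : 𝕜) • s.f n x • s.e n := by
  have h1 := (ContinuousLinearMap.apply 𝕜 X x).map_tsum s.summable_term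
  unfold K
  simpa using h1

theorem summable_apply (x : X) : Summable fun n => ((s.ε n : ℝ) : 𝕜) • s.f n x • s.e n := by
  have h1 := (ContinuousLinearMap.apply 𝕜 X x).summable s.summable_term
  simpa using h1

theorem K_e (j : ℕ) : s.K (s.e j) = ((s.ε j : ℝ) : 𝕜) • s.e j := by
  rw [K_apply, tsum_eq_single j]
  · by_cases h : s.e j = 0
    · rw [h, smul_zero]
    · rw [s.one j h, one_smul]
  · intro i hi
    rw [s.orth i j hi, zero_smul, smul_zero]

theorem f_K {j : ℕ} (hj : s.e j ≠ 0) (x : X) : s.f j (s.K x) = ((s.ε j : ℝ) : 𝕜) * s.f j x := by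
  rw [K_apply, (s.f j).map_tsum (s.summable_apply x), tsum_eq_single j]
  · rw [map_smul, map_smul, s.one j hj]
    simp
  · intro i hi
    rw [map_smul, map_smul, s.orth j i (Ne.symm hi), smul_zero, smul_zero]

/-- the operator `c (2 + K)` -/
def S (c : 𝕜) : X →L[𝕜] X := c • ((2 : 𝕜) • ContinuousLinearMap.id 𝕜 X + s.K)

theorem S_apply (c : 𝕜) (x : X) : s.S c x = c • ((2 : 𝕜) • x + s.K x) := rfl

theorem S_e (c : 𝕜) (j : ℕ) : s.S c (s.e j) = (c * (2 + (s.ε j : ℝ))) • s.e j := by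
  rw [S_apply, K_e, ← add_smul, smul_smul]

theorem S_pow_e (c : 𝕜) (j n : ℕ) :
    (s.S c)^[n] (s.e j) = (c * (2 + (s.ε j : ℝ))) ^ n • s.e j := by
  induction n with
  | zero => simp
  | succ n ih => rw [Function.iterate_succ_apply', ih, map_smul, S_e, smul_smul, pow_succ]

theorem f_S (c : 𝕜) {j : ℕ} (hj : s.e j ≠ 0) (x : X) :
    s.f j (s.S c x) = (c * (2 + (s.ε j : ℝ))) * s.f j x := by
  rw [S_apply, map_smul, map_add, map_smul, s.f_K hj, smul_eq_mul, smul_eq_mul]
  ring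

/-- the convex-cyclic vector -/
def v : X := ∑' n, ((s.ε n : ℝ) : 𝕜) • s.e n

theorem norm_v_term (n : ℕ) : ‖((s.ε n : ℝ) : 𝕜) • s.e n‖ ≤ (1 / 2) ^ n := by
  rw [norm_smul, RCLike.norm_ofReal, abs_of_pos (s.ε_pos n)]
  have h1 := ep_mul_le s.wt_nonneg n
  have h2 : ‖s.e n‖ ≤ s.wt n := by
    unfold wt
    have : 0 ≤ ‖s.f n‖ * ‖s.e n‖ := by positivity
    linarith
  exact (mul_le_mul_of_nonneg_left h2 (s.ε_pos n).le).trans h1

theorem summable_v : Summable fun n => ((s.ε n : ℝ) : 𝕜) • s.e n :=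
  Summable.of_norm_bounded summable_geometric_two (fun n => s.norm_v_term n)

theorem iterate_eq (T : X →L[𝕜] X) (n : ℕ) (x : X) : T^[n] x = (T ^ n) x := by
  induction n with
  | zero => rfl
  | succ n ih => rw [Function.iterate_succ_apply', ih, pow_succ']; rfl

theorem S_pow_v (c : 𝕜) (n : ℕ) (φ : StrongDual 𝕜 X) : φ ((s.S c)^[n] s.v) =
    ∑' k, (c * (2 + (s.ε k : ℝ))) ^ n * (((s.ε k : ℝ) : 𝕜) * φ (s.e k)) := by
  rw [iterate_eq, v, ContinuousLinearMap.map_tsum _ s.summable_v,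
    ContinuousLinearMap.map_tsum _ (ContinuousLinearMap.summable _ s.summable_v)]
  congr 1
  ext k
  rw [map_smul, ← iterate_eq, S_pow_e, map_smul, map_smul]
  simp only [smul_eq_mul]
  ring

/-- the orbit is not bounded above in the direction of a functional -/
theorem unbounded {c : 𝕜} (hc : ∀ A : 𝕜, A ≠ 0 → ∃ δ : ℝ, 0 < δ ∧
    ∃ᶠ n : ℕ in atTop, δ ≤ RCLike.re (c ^ n * A)) (hc1 : ‖c‖ = 1) {φ : StrongDual 𝕜 X} (hφ : φ ≠ 0)
    (u : ℝ) : ∃ n : ℕ, u ≤ RCLike.re (φ ((s.S c)^[n] s.v)) := by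
  classical
  have hex : ∃ k, φ (s.e k) ≠ 0 := by
    by_contra hcon
    push Not at hcon
    exact hφ (s.fund φ hcon)
  set k0 := Nat.find hex with hk0
  have h0 : φ (s.e k0) ≠ 0 := Nat.find_spec hex
  have hlt : ∀ k < k0, φ (s.e k) = 0 := fun k hk => not_not.1 (Nat.find_min hex hk)
  set A : ℕ → 𝕜 := fun k => ((s.ε k : ℝ) : 𝕜) * φ (s.e k) with hA
  have hA0 : A k0 ≠ 0 := by
    refine mul_ne_zero ?_ h0
    rw [Ne, RCLike.ofReal_eq_zero]
    exact (s.ε_pos k0).ne'
  have hAs : Summable fun k => ‖A k‖ := by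
    refine Summable.of_nonneg_of_le (fun _ => norm_nonneg _) (fun k => ?_)
      (summable_geometric_two.mul_left ‖φ‖)
    have h1 : A k = φ (((s.ε k : ℝ) : 𝕜) • s.e k) := by rw [map_smul, smul_eq_mul]
    rw [h1]
    exact (φ.le_opNorm _).trans (mul_le_mul_of_nonneg_left (s.norm_v_term k) (norm_nonneg _))
  set ρ : ℕ → ℝ := fun k => (2 + s.ε k) / (2 + s.ε k0) with hρ
  have hε := s.ε_pos
  have hden : 0 < 2 + s.ε k0 := by linarith [hε k0]
  -- the rest of the sum tends to zero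
  set B : ℕ → 𝕜 := fun k => if k = k0 then 0 else A k with hB
  have hrest : Tendsto (fun n : ℕ => ∑' k, ((ρ k : ℝ) : 𝕜) ^ n * B k) atTop (𝓝 0) := by
    have h1 : (0 : 𝕜) = ∑' _ : ℕ, (0 : 𝕜) := tsum_zero.symm
    rw [h1]
    refine tendsto_tsum_of_dominated_convergence hAs (fun k => ?_) (Eventually.of_forall ?_)
    · rcases lt_trichotomy k k0 with h | h | h
      · have : B k = 0 := by
          simp only [hB, hA]
          rw [if_neg h.ne, hlt k h, mul_zero]
        simp only [this, mul_zero]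
        exact tendsto_const_nhds
      · have : B k = 0 := by simp only [hB]; rw [if_pos h]
        simp only [this, mul_zero]
        exact tendsto_const_nhds
      · have h2 : ρ k < 1 := by
          simp only [hρ]
          rw [div_lt_one hden]
          linarith [s.ε_lt h]
        have h3 : 0 ≤ ρ k := by
          simp only [hρ]
          have := hε k
          positivity
        have h4 : Tendsto (fun n : ℕ => ((ρ k : ℝ) : 𝕜) ^ n) atTop (𝓝 0) := by
          apply tendsto_pow_atTop_nhds_zero_of_norm_lt_one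
          rw [RCLike.norm_ofReal, abs_of_nonneg h3]
          exact h2
        simpa using h4.mul_const (B k)
    · intro n k
      rcases lt_or_ge k k0 with h | h
      · have : B k = 0 := by
          simp only [hB, hA]
          rw [if_neg h.ne, hlt k h, mul_zero]
        rw [this, mul_zero, norm_zero]
        exact norm_nonneg _
      · have h2 : ρ k ≤ 1 := by
          simp only [hρ]
          rw [div_le_one hden]
          rcases h.lt_or_eq with h | h
          · linarith [s.ε_lt h]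
          · rw [h]
        have h3 : 0 ≤ ρ k := by
          simp only [hρ]
          have := hε k
          positivity
        rw [norm_mul, norm_pow, RCLike.norm_ofReal, abs_of_nonneg h3]
        have h4 : ‖B k‖ ≤ ‖A k‖ := by
          simp only [hB]
          split_ifs
          · rw [norm_zero]; exact norm_nonneg _
          · exact le_rfl
        calc ρ k ^ n * ‖B k‖ ≤ 1 * ‖A k‖ :=
              mul_le_mul (pow_le_one₀ h3 h2) h4 (norm_nonneg _) zero_le_one
          _ = ‖A k‖ := one_mul _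
  obtain ⟨δ, hδ, hfreq⟩ := hc (A k0) hA0
  have hsmall : ∀ᶠ n : ℕ in atTop, ‖∑' k, ((ρ k : ℝ) : 𝕜) ^ n * B k‖ < δ / 2 := by
    have h1 := hrest.norm
    rw [norm_zero] at h1
    exact h1.eventually (gt_mem_nhds (half_pos hδ))
  have hbig : ∀ᶠ n : ℕ in atTop, |u| * 2 / δ ≤ 2 ^ n :=
    (tendsto_pow_atTop_atTop_of_one_lt (by norm_num : (1 : ℝ) < 2)).eventually_ge_atTop _
  obtain ⟨n, hn1, hn2, hn3⟩ := (hfreq.and_eventually (hsmall.and hbig)).exists
  refine ⟨n, ?_⟩
  have hsum : φ ((s.S c)^[n] s.v) = (((2 + s.ε k0) ^ n : ℝ) : 𝕜) *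
      (c ^ n * A k0 + c ^ n * ∑' k, ((ρ k : ℝ) : 𝕜) ^ n * B k) := by
    have hs1 : Summable fun k => ((ρ k : ℝ) : 𝕜) ^ n * B k := by
      refine Summable.of_norm_bounded hAs (fun k => ?_)
      rcases lt_or_ge k k0 with h | h
      · have : B k = 0 := by
          simp only [hB, hA]
          rw [if_neg h.ne, hlt k h, mul_zero]
        rw [this, mul_zero, norm_zero]
        exact norm_nonneg _
      · have h2 : ρ k ≤ 1 := by
          simp only [hρ]
          rw [div_le_one hden]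
          rcases h.lt_or_eq with h | h
          · linarith [s.ε_lt h]
          · rw [h]
        have h3 : 0 ≤ ρ k := by
          simp only [hρ]
          have := hε k
          positivity
        rw [norm_mul, norm_pow, RCLike.norm_ofReal, abs_of_nonneg h3]
        have h4 : ‖B k‖ ≤ ‖A k‖ := by
          simp only [hB]
          split_ifs
          · rw [norm_zero]; exact norm_nonneg _
          · exact le_rfl
        calc ρ k ^ n * ‖B k‖ ≤ 1 * ‖A k‖ :=
              mul_le_mul (pow_le_one₀ h3 h2) h4 (norm_nonneg _) zero_le_one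
          _ = ‖A k‖ := one_mul _
    have hs2 : Summable fun k => if k = k0 then A k0 else 0 :=
      (hasSum_ite_eq k0 (A k0)).summable
    have e1 : A k0 = ∑' k, (if k = k0 then A k0 else 0) := (tsum_ite_eq k0 fun _ => A k0).symm
    rw [← mul_add]
    conv_rhs => rw [e1]
    rw [← hs2.tsum_add hs1, ← tsum_mul_left, ← tsum_mul_left, S_pow_v]
    congr 1
    ext k
    have e2 : ((2 : 𝕜) + (s.ε k : ℝ)) = ((2 + s.ε k : ℝ) : 𝕜) := by push_cast; rfl
    rw [e2, mul_pow]
    by_cases h : k = k0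
    · subst h
      simp only [hB, if_pos rfl, mul_zero, add_zero]
      push_cast
      ring
    · simp only [hB, if_neg h, zero_add]
      have e3 : (2 + s.ε k : ℝ) = (2 + s.ε k0) * ρ k := by
        simp only [hρ]
        field_simp
      have e4 : (c ^ n * ((2 + s.ε k : ℝ) : 𝕜) ^ n) = c ^ n * ((2 + s.ε k0 : ℝ) : 𝕜) ^ n *
          ((ρ k : ℝ) : 𝕜) ^ n := by
        rw [e3, RCLike.ofReal_mul, mul_pow, mul_assoc]
      rw [e4]
      simp only [hA]
      rw [RCLike.ofReal_pow]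
      ring
  rw [hsum, RCLike.re_ofReal_mul, map_add]
  have h1 : -‖∑' k, ((ρ k : ℝ) : 𝕜) ^ n * B k‖ ≤
      RCLike.re (c ^ n * ∑' k, ((ρ k : ℝ) : 𝕜) ^ n * B k) := by
    have h2 := (abs_le.1 (RCLike.abs_re_le_norm (c ^ n * ∑' k, ((ρ k : ℝ) : 𝕜) ^ n * B k))).1
    rwa [norm_mul, norm_pow, hc1, one_pow, one_mul] at h2
  have h2 : δ / 2 ≤ RCLike.re (c ^ n * A k0) +
      RCLike.re (c ^ n * ∑' k, ((ρ k : ℝ) : 𝕜) ^ n * B k) := by linarith
  have h3 : (2 : ℝ) ^ n ≤ (2 + s.ε k0) ^ n := pow_le_pow_left₀ (by norm_num) (by linarith [hε k0]) n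
  calc u ≤ |u| := le_abs_self u
    _ = |u| * 2 / δ * (δ / 2) := by field_simp
    _ ≤ (2 + s.ε k0) ^ n * (δ / 2) := by
        apply mul_le_mul_of_nonneg_right (hn3.trans h3) (by linarith)
    _ ≤ _ := mul_le_mul_of_nonneg_left h2 (by positivity)

/-- the operator is convex-cyclic -/
theorem convexCyclic [NormedSpace ℝ X] [IsScalarTower ℝ 𝕜 X] {c : 𝕜}
    (hc : ∀ A : 𝕜, A ≠ 0 → ∃ δ : ℝ, 0 < δ ∧ ∃ᶠ n : ℕ in atTop, δ ≤ RCLike.re (c ^ n * A))
    (hc1 : ‖c‖ = 1) : ConvexCyclic (s.S c) := by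
  refine ⟨s.v, ?_⟩
  by_contra hcon
  rw [dense_iff_closure_eq, eq_univ_iff_forall] at hcon
  push Not at hcon
  obtain ⟨x, hx⟩ := hcon
  obtain ⟨φ, u, h1, h2⟩ := RCLike.geometric_hahn_banach_closed_point (𝕜 := 𝕜)
    (convex_convexHull ℝ (range fun n : ℕ => (s.S c)^[n] s.v)).closure isClosed_closure hx
  have hφ : φ ≠ 0 := by
    rintro rfl
    have h3 := h1 s.v (subset_closure (subset_convexHull ℝ _ ⟨0, rfl⟩))
    simp at h2 h3
    linarith
  obtain ⟨n, hn⟩ := s.unbounded hc hc1 hφ u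
  have h3 := h1 _ (subset_closure (subset_convexHull ℝ _ ⟨n, rfl⟩))
  simp only at h3
  linarith

/-- the square is not convex-cyclic -/
theorem not_convexCyclic [Nontrivial X] [NormedSpace ℝ X] [IsScalarTower ℝ 𝕜 X] {c : 𝕜}
    (hc : ∀ a : 𝕜, ∃ b : 𝕜, b ≠ 0 ∧ ∀ n : ℕ, 0 ≤ RCLike.re (b * ((c ^ 2) ^ n * a))) :
    ¬ ConvexCyclic (s.S c ^ 2 : X →L[𝕜] X) := by
  rintro ⟨x, hx⟩
  have hex : ∃ j, s.e j ≠ 0 := by
    by_contra hcon
    push Not at hcon
    obtain ⟨y, hy⟩ := exists_ne (0 : X)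
    obtain ⟨φ, hφ⟩ := SeparatingDual.exists_eq_one (R := 𝕜) hy
    have h1 := s.fund φ (fun i => by rw [hcon i, map_zero])
    rw [h1] at hφ
    simp at hφ
  obtain ⟨j, hj⟩ := hex
  obtain ⟨b, hb, hb2⟩ := hc (s.f j x)
  have h1 : ∀ n : ℕ, s.f j ((s.S c ^ 2 : X →L[𝕜] X)^[n] x) =
      (((2 + s.ε j) ^ 2 : ℝ) : 𝕜) ^ n * ((c ^ 2) ^ n * s.f j x) := by
    intro n
    induction n with
    | zero => simp
    | succ n ih =>
      have h2 : ∀ y, (s.S c ^ 2 : X →L[𝕜] X) y = s.S c (s.S c y) := fun y => by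
        rw [pow_two]; rfl
      rw [Function.iterate_succ_apply', h2, s.f_S c hj, s.f_S c hj, ih]
      push_cast
      ring
  have hcont : Continuous fun y => RCLike.re (b * s.f j y) :=
    RCLike.continuous_re.comp (continuous_const.mul (s.f j).continuous)
  have hclosed : IsClosed {y | 0 ≤ RCLike.re (b * s.f j y)} :=
    isClosed_le continuous_const hcont
  have hconv : Convex ℝ {y | 0 ≤ RCLike.re (b * s.f j y)} := by
    intro y hy z hz a a' ha ha' haa
    have hy : 0 ≤ RCLike.re (b * s.f j y) := hy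
    have hz : 0 ≤ RCLike.re (b * s.f j z) := hz
    show 0 ≤ RCLike.re (b * s.f j (a • y + a' • z))
    have e1 : a • y = ((a : ℝ) : 𝕜) • y := by
      rw [← algebraMap_smul 𝕜 a y, RCLike.algebraMap_eq_ofReal]
    have e2 : a' • z = ((a' : ℝ) : 𝕜) • z := by
      rw [← algebraMap_smul 𝕜 a' z, RCLike.algebraMap_eq_ofReal]
    rw [e1, e2, map_add, map_smul, map_smul, smul_eq_mul, smul_eq_mul]
    have e3 : b * (((a : ℝ) : 𝕜) * s.f j y + ((a' : ℝ) : 𝕜) * s.f j z) =
        ((a : ℝ) : 𝕜) * (b * s.f j y) + ((a' : ℝ) : 𝕜) * (b * s.f j z) := by ring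
    rw [e3, map_add, RCLike.re_ofReal_mul, RCLike.re_ofReal_mul]
    positivity
  have hsub : convexHull ℝ (range fun n : ℕ => (s.S c ^ 2 : X →L[𝕜] X)^[n] x) ⊆
      {y | 0 ≤ RCLike.re (b * s.f j y)} := by
    apply convexHull_min _ hconv
    rintro _ ⟨n, rfl⟩
    show 0 ≤ RCLike.re (b * s.f j _)
    rw [h1]
    have e3 : b * ((((2 + s.ε j) ^ 2 : ℝ) : 𝕜) ^ n * ((c ^ 2) ^ n * s.f j x)) =
        ((((2 + s.ε j) ^ 2) ^ n : ℝ) : 𝕜) * (b * ((c ^ 2) ^ n * s.f j x)) := by
      push_cast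
      ring
    rw [e3, RCLike.re_ofReal_mul]
    exact mul_nonneg (by positivity) (hb2 n)
  have h2 := (hclosed.closure_subset_iff.2 hsub)
  rw [hx.closure_eq] at h2
  have h3 := h2 (mem_univ (-(b⁻¹ • s.e j)))
  have h4 : 0 ≤ RCLike.re (b * s.f j (-(b⁻¹ • s.e j))) := h3
  rw [map_neg, map_smul, s.one j hj, smul_eq_mul, mul_one, mul_neg, mul_inv_cancel₀ hb, map_neg,
    RCLike.one_re] at h4
  norm_num at h4

end Sys

theorem real_case (X : Type*) [NormedAddCommGroup X] [NormedSpace ℝ X] [CompleteSpace X]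
    [TopologicalSpace.SeparableSpace X] [Nontrivial X] :
    ∃ S : X →L[ℝ] X, ConvexCyclic S ∧ ¬ ConvexCyclic (S ^ 2 : X →L[ℝ] X) := by
  obtain ⟨e, f, h1, h2, h3⟩ := exists_biorth ℝ X
  let s : Sys ℝ X := ⟨e, f, h1, h2, h3⟩
  refine ⟨s.S (-1), s.convexCyclic ?_ (by simp), s.not_convexCyclic ?_⟩
  · intro A hA
    refine ⟨|A|, abs_pos.2 hA, ?_⟩
    rw [frequently_atTop]
    intro N
    rcases le_or_gt 0 A with h | h
    · refine ⟨2 * N, by omega, ?_⟩
      rw [pow_mul]
      simp [abs_of_nonneg h]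
    · refine ⟨2 * N + 1, by omega, ?_⟩
      rw [pow_succ, pow_mul]
      simp [abs_of_neg h]
  · intro a
    by_cases ha : a = 0
    · exact ⟨1, one_ne_zero, fun n => by simp [ha]⟩
    · refine ⟨a, ha, fun n => ?_⟩
      simp
      exact mul_self_nonneg a

theorem complex_case (X : Type*) [NormedAddCommGroup X] [NormedSpace ℂ X] [CompleteSpace X]
    [TopologicalSpace.SeparableSpace X] [Nontrivial X] :
    ∃ S : X →L[ℂ] X, ConvexCyclic S ∧ ¬ ConvexCyclic (S ^ 2 : X →L[ℂ] X) := by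
  obtain ⟨e, f, h1, h2, h3⟩ := exists_biorth ℂ X
  let s : Sys ℂ X := ⟨e, f, h1, h2, h3⟩
  refine ⟨s.S Complex.I, s.convexCyclic ?_ (by simp), s.not_convexCyclic ?_⟩
  · intro A hA
    have hI4 : ∀ N : ℕ, Complex.I ^ (4 * N) = 1 := fun N => by
      rw [pow_mul, Complex.I_pow_four, one_pow]
    by_cases hre : A.re = 0
    · have him : A.im ≠ 0 := by
        intro h
        exact hA (Complex.ext hre h)
      refine ⟨|A.im|, abs_pos.2 him, ?_⟩
      rw [frequently_atTop]
      intro N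
      rcases le_or_gt 0 A.im with h | h
      · refine ⟨4 * N + 3, by omega, ?_⟩
        rw [pow_add, hI4, one_mul, Complex.I_pow_three]
        simp [abs_of_nonneg h]
      · refine ⟨4 * N + 1, by omega, ?_⟩
        rw [pow_add, hI4, one_mul, pow_one]
        simp [abs_of_neg h]
    · refine ⟨|A.re|, abs_pos.2 hre, ?_⟩
      rw [frequently_atTop]
      intro N
      rcases le_or_gt 0 A.re with h | h
      · refine ⟨4 * N, by omega, ?_⟩
        rw [hI4]
        simp [abs_of_nonneg h]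
      · refine ⟨4 * N + 2, by omega, ?_⟩
        rw [pow_add, hI4, one_mul, Complex.I_sq]
        simp [abs_of_neg h]
  · intro a
    by_cases ha : a = 0
    · exact ⟨1, one_ne_zero, fun n => by simp [ha]⟩
    · refine ⟨Complex.I * (starRingEnd ℂ) a, mul_ne_zero Complex.I_ne_zero (by simpa using ha),
        fun n => ?_⟩
      rw [Complex.I_sq]
      have h5 : Complex.I * (starRingEnd ℂ) a * ((-1) ^ n * a) =
          (((-1) ^ n * Complex.normSq a : ℝ) : ℂ) * Complex.I := by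
        rw [Complex.ofReal_mul, Complex.normSq_eq_conj_mul_self]
        push_cast
        ring
      rw [h5]
      show 0 ≤ ((((-1) ^ n * Complex.normSq a : ℝ) : ℂ) * Complex.I).re
      rw [Complex.re_ofReal_mul, Complex.I_re, mul_zero]

end Pool.Agent.U594.CC
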